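import Pool.Agent.RS.StmtsG

set_option autoImplicit false

/-!
# Squad TOR (`MP_b2b50d_lc`): products of polynomials with Newton polytopes of bounded dimension

Definitions.  Exponent vectors are elements of `ℕ →₀ ℚ`.
-/

namespace Pool.Agent.TOR

open MvPolynomial
open Pool.Agent.RS (FF io total numer)

/-- The exponent vector `s` with rational entries. -/
noncomputable def vec (s : ℕ →₀ ℕ) : ℕ →₀ ℚ := s.mapRange (fun a : ℕ => (a : ℚ)) Nat.cast_zero

/-- The integer vector `g` with rational entries. -/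
noncomputable def zvec (g : ℕ →₀ ℤ) : ℕ →₀ ℚ := g.mapRange (fun a : ℤ => (a : ℚ)) Int.cast_zero

/-- `V` is spanned by integer vectors supported in `{0, ..., n - 1}` with entries at most `D` in absolute
value. -/
def IntSpan (n D : ℕ) (V : Submodule ℚ (ℕ →₀ ℚ)) : Prop :=
  ∃ G : Finset (ℕ →₀ ℤ), (∀ g ∈ G, (∀ l, |g l| ≤ (D : ℤ)) ∧ ∀ l, n ≤ l → g l = 0) ∧
    V = Submodule.span ℚ (zvec '' (G : Set (ℕ →₀ ℤ)))

/-- The weight `b ^ l mod q` of the variable `x_l`. -/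
def wt (q b l : ℕ) : ℕ := b ^ l % q

/-- The exponents of the generator: `x_l ↦ ∏ j < t, y_j ^ (α_j ^ l mod q)`, where `y_j` is the variable
with index `j`. -/
noncomputable def gexp (q : ℕ) {t : ℕ} (α : Fin t → Fin q) (l : ℕ) : ℕ →₀ ℕ :=
  ∑ j : Fin t, Finsupp.single (j : ℕ) (wt q (α j) l)

/-- The linear map of exponent vectors induced by `x_i ↦ x ^ (e i)`. -/
noncomputable def lin (e : ℕ → ℕ →₀ ℕ) : (ℕ →₀ ℚ) →ₗ[ℚ] (ℕ →₀ ℚ) :=
  Finsupp.linearCombination ℚ fun i => vec (e i)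

section Field

variable {E : Type} [Field E]

/-- All exponent vectors of `f` are in `ν + L`. -/
def Mon (L : Submodule ℚ (ℕ →₀ ℚ)) (ν : ℕ →₀ ℚ) (f : MvPolynomial ℕ E) : Prop :=
  ∀ s ∈ f.support, vec s - ν ∈ L

/-- The derivation `x ^ s ↦ (∑ s_l u_l) x ^ s`. -/
noncomputable def Du (u : ℕ → E) : Derivation E (MvPolynomial ℕ E) (MvPolynomial ℕ E) :=
  mkDerivation E fun i => C (u i) * X i

/-- The monomial substitution `x_i ↦ x ^ (e i)`. -/
noncomputable def sub (e : ℕ → ℕ →₀ ℕ) : MvPolynomial ℕ E →ₐ[E] MvPolynomial ℕ E :=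
  aeval fun i => monomial (e i) (1 : E)

/-! ## The class -/

/-- `f` is a polynomial in `x_0, ..., x_(n-1)` of degree at most `D`, and its exponent vectors lie in an
affine space of dimension at most `c`. -/
def IsThin (E : Type) [Field E] (c n D : ℕ) (f : MvPolynomial ℕ E) : Prop :=
  f.vars ⊆ Finset.range n ∧ f.totalDegree ≤ D ∧
    Module.finrank ℚ (vectorSpan ℚ (vec '' (f.support : Set (ℕ →₀ ℕ)))) ≤ c

/-- `T = f_1 ^ e_1 ... f_N ^ e_N (a_1 / b_1 + ... + a_M / b_M)` with thin `f_v`, `a_t`, `b_t`. -/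
def IsClu (E : Type) [Field E] (c n s D : ℕ) (T : MvPolynomial ℕ E) : Prop :=
  ∃ (N M : ℕ) (f : Fin N → MvPolynomial ℕ E) (e : Fin N → ℕ) (a b : Fin M → MvPolynomial ℕ E),
    N ≤ s ∧ M ≤ s ∧ (∀ v, IsThin E c n D (f v)) ∧ (∀ t, IsThin E c n D (a t)) ∧
    (∀ t, IsThin E c n D (b t) ∧ b t ≠ 0) ∧
    T * ∏ t, b t = (∏ v, f v ^ e v) * ∑ t, a t * ∏ t' ∈ Finset.univ.erase t, b t'

/-- `F = C(T_1, ..., T_m)`, at most `k` of the clusters are algebraically independent. -/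
def IsCmp (E : Type) [Field E] (k c n s D : ℕ) (F : MvPolynomial ℕ E) : Prop :=
  ∃ (m : ℕ) (T : Fin m → MvPolynomial ℕ E) (C : MvPolynomial (Fin m) E),
    (∀ i, IsClu E c n s D (T i)) ∧
    (∀ s : Finset (Fin m), AlgebraicIndependent E (fun i : s => T i) → s.card ≤ k) ∧
    F = aeval T C

end Field

/-- The point `x_i = ∏ j < t, y_j ^ (α_j ^ i mod q)` (`x_i = 0` for `i ≥ n`). -/
def tpoint {R : Type} [CommRing R] (n q : ℕ) {t : ℕ} (α : Fin t → Fin q) (y : Fin t → R) (i : ℕ) :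
    R :=
  if i < n then ∏ j, y j ^ ((α j : ℕ) ^ i % q) else 0

end Pool.Agent.TOR
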