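import Pool.Agent.TOR.Defs
import Pool.Agent.Helper78_ACIT.Circuit
import Pool.Agent.Helper78_ACIT.Prime
import Pool.Agent.Helper12_CMP.Transfer

set_option autoImplicit false

/-!
# Squad TOR (`MP_b2b50d_lc`): statements

Every row is a `Prop`, to be proved as a theorem `xxx : XxxStmt` (or `(h : YyyStmt) → XxxStmt`) in
`Pool/Agent/HelperN_TOR/XXX.lean`, namespace `Pool.Agent.TOR.HN`.

The theorem: products of (powers of) polynomials whose exponent vectors lie in an affine space of bounded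
dimension.  The logarithmic Jacobian is a sum of polynomially many fractions `A_t / B_t`, each in
`x^(δ_t) E(x^(L_t))` with a space `L_t` of bounded dimension.  A monomial substitution `x_i ↦ y^(e_i)`
which is injective on `L_t + L_t' + ℚ (δ_t - δ_t')` for all `t`, `t'` maps a nonzero sum to a nonzero sum
(expansion as Laurent series: no collisions).
-/

namespace Pool.Agent.TOR

open MvPolynomial
open Pool.Agent.RS (FF io total numer)

/-! ## Block 1: exponent vectors and monomial substitutions -/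

/-- ROW MON.  Rules for `Mon`.

PROOF.  (1) `support_mul` (a point of the support of `f g` is a sum of points of the supports), `vec` is
additive.  (2) Induction with (1).  (3) clear.  (4) clear (`support_add`, `support_neg`).
(5) `mkDerivation_monomial`-like: `Du u (monomial s a) = monomial s (a ∑ s_l u_l)`, so the support
of `Du u f` is a subset of the support of `f` (write `f` as the sum of its monomials).  (6) If
`f ≠ 0` take `ν = vec s₀`, `s₀ ∈ f.support`: `vsub_mem_vectorSpan`; if `f = 0` anything.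
(7) `vectorSpan ℚ S = span (S -ᵥ S)` or, for a base point, `vectorSpan_eq_span_vsub_set_right`; the
differences `s - s'` of exponent vectors are integer vectors (entries `≤ totalDegree ≤ D`:
`le_totalDegree`/`degreeOf`, support in `vars ⊆ range n`).  80 lines. -/
def MonStmt : Prop := ∀ (E : Type) [Field E],
  (∀ (L L' : Submodule ℚ (ℕ →₀ ℚ)) (ν ν' : ℕ →₀ ℚ) (f g : MvPolynomial ℕ E), Mon L ν f → Mon L' ν' g →
    Mon (L ⊔ L') (ν + ν') (f * g)) ∧
  (∀ (ι : Type) [Fintype ι] (L : ι → Submodule ℚ (ℕ →₀ ℚ)) (ν : ι → ℕ →₀ ℚ)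
    (f : ι → MvPolynomial ℕ E), (∀ i, Mon (L i) (ν i) (f i)) → Mon (⨆ i, L i) (∑ i, ν i) (∏ i, f i)) ∧
  (∀ (L L' : Submodule ℚ (ℕ →₀ ℚ)) (ν : ℕ →₀ ℚ) (f : MvPolynomial ℕ E), L ≤ L' → Mon L ν f →
    Mon L' ν f) ∧
  (∀ (L : Submodule ℚ (ℕ →₀ ℚ)) (ν : ℕ →₀ ℚ) (f g : MvPolynomial ℕ E), Mon L ν f → Mon L ν g →
    Mon L ν (f - g) ∧ Mon L ν (f + g)) ∧
  (∀ (L : Submodule ℚ (ℕ →₀ ℚ)) (ν : ℕ →₀ ℚ) (f : MvPolynomial ℕ E) (u : ℕ → E), Mon L ν f →
    Mon L ν (Du u f)) ∧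
  (∀ f : MvPolynomial ℕ E, f ≠ 0 → ∃ s₀ ∈ f.support,
    Mon (vectorSpan ℚ (vec '' (f.support : Set (ℕ →₀ ℕ)))) (vec s₀) f) ∧
  ∀ (c n D : ℕ) (f : MvPolynomial ℕ E), IsThin E c n D f →
    IntSpan n D (vectorSpan ℚ (vec '' (f.support : Set (ℕ →₀ ℕ)))) ∧
    ∀ s ∈ f.support, (∀ l, s l ≤ D) ∧ ∀ l, n ≤ l → s l = 0

/-- ROW ISP.  Rules for `IntSpan` and dimensions.

PROOF.  (1) union of the two sets, `Submodule.span_union`, `Set.image_union`.  (2) induction
(`Finset.sup`) or union over `ι` (`Finset.biUnion`, `Submodule.span_iUnion`).  (3) `{g}`.  (4) clear.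
(5) `IntSpan` gives finite dimension (`FiniteDimensional.span_of_finite`).  (6)
`Submodule.finrank_add_le_finrank_add_finrank`; for `⨆` induction.  (7) `finrank_span_singleton`-like:
`finrank_span_le_card`.  60 lines. -/
def IspStmt : Prop :=
  (∀ (n D : ℕ) (V W : Submodule ℚ (ℕ →₀ ℚ)), IntSpan n D V → IntSpan n D W → IntSpan n D (V ⊔ W)) ∧
  (∀ (n D : ℕ) (ι : Type) [Fintype ι] (V : ι → Submodule ℚ (ℕ →₀ ℚ)), (∀ i, IntSpan n D (V i)) →
    IntSpan n D (⨆ i, V i)) ∧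
  (∀ (n D : ℕ) (g : ℕ →₀ ℤ), (∀ l, |g l| ≤ (D : ℤ)) → (∀ l, n ≤ l → g l = 0) →
    IntSpan n D (Submodule.span ℚ {zvec g})) ∧
  (∀ (n D D' : ℕ) (V : Submodule ℚ (ℕ →₀ ℚ)), D ≤ D' → IntSpan n D V → IntSpan n D' V) ∧
  (∀ (n D : ℕ) (V : Submodule ℚ (ℕ →₀ ℚ)), IntSpan n D V → FiniteDimensional ℚ V) ∧
  (∀ V W : Submodule ℚ (ℕ →₀ ℚ), FiniteDimensional ℚ V → FiniteDimensional ℚ W →
    Module.finrank ℚ (V ⊔ W : Submodule ℚ (ℕ →₀ ℚ)) ≤ Module.finrank ℚ V + Module.finrank ℚ W) ∧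
  (∀ (ι : Type) [Fintype ι] (V : ι → Submodule ℚ (ℕ →₀ ℚ)), (∀ i, FiniteDimensional ℚ (V i)) →
    Module.finrank ℚ (⨆ i, V i : Submodule ℚ (ℕ →₀ ℚ)) ≤ ∑ i, Module.finrank ℚ (V i)) ∧
  ∀ v : ℕ →₀ ℚ, Module.finrank ℚ (Submodule.span ℚ {v}) ≤ 1

/-- ROW SUB.  Rules for `sub` and `lin`.

PROOF.  (1) `aeval_monomial`, `Finsupp.prod` of monomials: `sub e (monomial s a) = monomial (∑ s_i e_i) a`.
(2) `lin e (vec s) = vec (∑ s_i e_i)`: linearity.  (3) `X j * pderiv j (sub e f) = sub e (Du u f)` with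
`u i = e i j`: both sides are additive in `f`, check monomials:
`X j * pderiv j (monomial m a) = monomial m (a m_j)` and `m_j = ∑ s_i (e i j)`.  50 lines. -/
def SubStmt : Prop := ∀ (E : Type) [Field E] (e : ℕ → ℕ →₀ ℕ),
  (∀ (s : ℕ →₀ ℕ) (a : E), sub e (monomial s a) = monomial (s.sum fun i m => m • e i) a) ∧
  (∀ s : ℕ →₀ ℕ, lin e (vec s) = vec (s.sum fun i m => m • e i)) ∧
  ∀ (f : MvPolynomial ℕ E) (j : ℕ),
    X j * pderiv j (sub e f) = sub e (Du (fun i => ((e i j : ℕ) : E)) f)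

/-- ROW SNZ.  A monomial substitution which is injective on the exponents does not kill `f`.

PROOF (from SUB).  If `s ≠ s'` are in the support then `∑ s_i e_i ≠ ∑ s'_i e_i` (else
`lin e (vec s - vec s') = 0`, and `vec s - vec s' ∈ L`, so `s = s'`).  So the coefficient of `sub e f`
at `∑ s_i e_i` is `coeff s f ≠ 0`.  40 lines. -/
def SnzStmt : Prop := ∀ (E : Type) [Field E] (e : ℕ → ℕ →₀ ℕ) (L : Submodule ℚ (ℕ →₀ ℚ))
  (ν : ℕ →₀ ℚ) (f : MvPolynomial ℕ E), Mon L ν f → (∀ v ∈ L, lin e v = 0 → v = 0) → f ≠ 0 →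
    sub e f ≠ 0

/-- ROW AHL (helper26).  ABSTRACT LEMMA ON LAURENT SERIES. -/
def AhlStmt : Prop := ∀ (E Γ Γ' : Type) [Field E] [AddCommGroup Γ] [LinearOrder Γ]
  [IsOrderedAddMonoid Γ] [AddCommGroup Γ'] [LinearOrder Γ'] [IsOrderedAddMonoid Γ'] (pr : Γ →+ Γ'),
  Monotone pr → ∀ (ι : Type) [Fintype ι] (H : ι → AddSubgroup Γ) (ν : ι → Γ),
    (∀ t, ∀ x ∈ H t, pr x = 0 → x = 0) →
    (∀ t t', ∀ x ∈ H t, ∀ y ∈ H t', pr (ν t + x) = pr (ν t' + y) → ν t + x = ν t' + y) →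
    ∃ (em : ∀ t, HahnSeries (H t) E →+* HahnSeries Γ E)
      (em' : ∀ t, HahnSeries (H t) E →+* HahnSeries Γ' E),
      (∀ t (x : H t) (a : E), em t (HahnSeries.single x a) = HahnSeries.single (x : Γ) a) ∧
      (∀ t (x : H t) (a : E), em' t (HahnSeries.single x a) = HahnSeries.single (pr x) a) ∧
      ∀ u : ∀ t, HahnSeries (H t) E,
        ∑ t, HahnSeries.single (ν t) (1 : E) * em t (u t) ≠ 0 →
        ∑ t, HahnSeries.single (pr (ν t)) (1 : E) * em' t (u t) ≠ 0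

/-- ROW KEY (helper26).  NO COLLISIONS (from AHL, SUB, SNZ). -/
def KeyStmt : Prop := ∀ (E : Type) [Field E] (ι : Type) [Fintype ι]
  (A B : ι → MvPolynomial ℕ E) (L : ι → Submodule ℚ (ℕ →₀ ℚ)) (ν δ : ι → ℕ →₀ ℚ)
  (e : ℕ → ℕ →₀ ℕ), (∀ t, B t ≠ 0) → (∀ t, Mon (L t) (ν t + δ t) (A t)) →
    (∀ t, Mon (L t) (ν t) (B t)) →
    (∀ t t', ∀ v ∈ L t ⊔ L t' ⊔ Submodule.span ℚ {δ t - δ t'}, lin e v = 0 → v = 0) →
    total A B ≠ 0 → total (fun t => sub e (A t)) (fun t => sub e (B t)) ≠ 0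

/-! ## Block 2: the exponents `b ^ l mod q` -/

/-- ROW VDM.  At most `n - 1` of the vectors `(b ^ l mod q)_(l < n)` are orthogonal to a nonzero vector.

PROOF.  Otherwise there are `n` different `b_i < q` with `∑ c_l (b_i ^ l mod q) = 0`.  The integer matrix
`(b_i ^ l mod q)` maps to the Vandermonde matrix over `ZMod q` (`Matrix.det_vandermonde_ne_zero_iff`,
`Nat.cast` injective on `Fin q`), so its determinant is not `0` in `ZMod q`, so not in `ℤ`, so not in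
`K` (`Matrix.det` commutes with `Int.castRingHom K`), so `c = 0` on `range n`
(`Matrix.eq_zero_of_mulVec_eq_zero`).  (2) over `ZMod q`: `∑ c_l X ^ l` is a nonzero polynomial of degree
`< n`.  60 lines. -/
def VdmStmt : Prop := ∀ n q : ℕ, q.Prime →
  (∀ (K : Type) [Field K] [CharZero K] (c : ℕ → K), (∃ l < n, c l ≠ 0) →
    ∀ S : Finset (Fin q), (∀ b ∈ S, ∑ l ∈ Finset.range n, c l * (wt q b l : K) = 0) → S.card < n) ∧
  ∀ c : ℕ → ZMod q, (∃ l < n, c l ≠ 0) → ∀ S : Finset (Fin q),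
    (∀ b ∈ S, ∑ l ∈ Finset.range n, c l * (wt q b l : ZMod q) = 0) → S.card < n

/-- ROW MLN.  Finitely many nonzero multilinear forms do not vanish at a common choice of rows
`(b ^ l mod q)_l`.

PROOF (from VDM).  By induction on `j ≤ k` there are `β_0, ..., β_(j-1)` such that for all `i` there is
`c : Fin (ρ i) → ℕ`, `c < n`, with `Δ i (v) ≠ 0`, where `v l` is the row of `β_l` for `l < j` and
`Pi.single (c l) 1` for `l ≥ j`.  Step: for every `i` with `ρ i > j` the coefficients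
`c' l = Δ i (v with row j replaced by Pi.single l 1)` are not all `0` for `l < n`; since
`(row of β) = ∑ l < n, wt • Pi.single l 1`, the value with row `j` replaced by the row of `β` is
`∑ l < n, c' l * wt q β l`, so by VDM fewer than `n` of the `β` are bad for `i`; in all fewer than
`card ι * n ≤ q`, so a common good one exists.  (`MultilinearMap.map_update_add`, `_smul`,
`MultilinearMap.map_update_sum`, `Function.update`.)  100 lines.  STRONG. -/
def MlnStmt : Prop := ∀ (K : Type) [Field K] [CharZero K] (n q k : ℕ) (ι : Type) [Fintype ι]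
  (ρ : ι → ℕ) (Δ : ∀ i, MultilinearMap K (fun _ : Fin (ρ i) => ℕ → K) K), q.Prime →
    Fintype.card ι * n < q → ∀ hρ : ∀ i, ρ i ≤ k,
    (∀ i, ∃ c : Fin (ρ i) → ℕ, (∀ j, c j < n) ∧ Δ i (fun j => Pi.single (c j) 1) ≠ 0) →
    ∃ β : Fin k → Fin q, ∀ i,
      Δ i (fun j l => if l < n then (wt q (β (Fin.castLE (hρ i) j)) l : K) else 0) ≠ 0

/-- ROW MOD.  Injective exponents for finitely many spaces.

PROOF (from VDM (2)).  Let `V i = span G_i`.  Choose a basis `g_1, ..., g_r` of `V i` in `zvec '' G_i`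
(`exists_linearIndependent`), `r ≤ R`.  The matrix `(g_a l)_(a, l < n)` has rank `r` over `ℚ`, so some
`r x r` minor is a nonzero integer of absolute value `≤ r! D ^ r ≤ R! D ^ R < q` (if `D = 0` then `r = 0`),
so not `0` mod `q`, so the `g_a mod q` are linearly independent over `ZMod q`; `V_q,i` = their span in
`Fin n → ZMod q` (or `ℕ → ZMod q`).  Choose `α_0, α_1, ...` one after the other: `W_i^(j)` = the elements
of `V_q,i` orthogonal to the rows of `α_0, ..., α_(j-1)`; if `W_i^(j) ≠ 0` pick `0 ≠ w_i ∈ W_i^(j)`; by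
VDM (2) fewer than `n` of the `α` have row orthogonal to `w_i`; choose `α_j` not orthogonal to any `w_i`
(`card ι * n < q`).  So the dimension of `W_i^(j)` drops by one in each step until it is `0`: `W_i^(R) = 0`.
Now let `v ∈ V i`, `∑ l < n, v_l (α_j ^ l mod q) = 0` for all `j`, `v ≠ 0`: `v = ∑ c_a g_a`; clear
denominators and divide by common factors: integers `c_a`, not all divisible by `q` (`v` replaced by a
rational multiple).  Then `∑ c_a g_a mod q` is a nonzero element of `W_i^(R)`.  Contradiction.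
150 lines.  STRONG. -/
def ModStmt : Prop := ∀ (n R D q : ℕ) (ι : Type) [Fintype ι]
  (V : ι → Submodule ℚ (ℕ →₀ ℚ)), q.Prime → Fintype.card ι * n < q → R.factorial * D ^ R < q →
    (∀ i, IntSpan n D (V i)) → (∀ i, Module.finrank ℚ (V i) ≤ R) →
    ∃ α : Fin R → Fin q, ∀ i, ∀ v ∈ V i,
      (∀ j, ∑ l ∈ Finset.range n, v l * (wt q (α j) l : ℚ) = 0) → v = 0

/-! ## Block 3: the Jacobian -/

/-- ROW FTH.  JACOBIAN CRITERION AND FAITHFULNESS for monomial substitutions.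

PROOF (from SUB; edit of `Helper82_RS/FAI.lean`).  `exists_maximal`, `exists_jacobian_minor`: `ρ`, `s`,
`c` with `det (pderiv (c i) (T (s l))) ≠ 0`; `c i < n`, otherwise a row is zero (`vars ⊆ range n`);
multiply the rows by `X (c i)` (`Matrix.det_mul_column`/`det_mul_row`).  Faithfulness: by SUB (3)
`X (c' i) * pderiv (c' i) (sub e (T (s l))) = sub e (Du _ (T (s l)))`, so the determinant of the
`pderiv (c' i) (sub e (T (s l)))` is not zero (the rows multiplied by `X (c' i)` give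
`sub e` of the determinant, `AlgHom.map_det`), `algebraicIndependent_of_minor`, `faithful`.
60 lines. -/
def FthStmt : Prop := ∀ (E : Type) [Field E] [CharZero E] (m k n : ℕ)
  (T : Fin m → MvPolynomial ℕ E), (∀ i, (T i).vars ⊆ Finset.range n) →
  (∀ s : Finset (Fin m), AlgebraicIndependent E (fun i : s => T i) → s.card ≤ k) →
    ∃ (ρ : ℕ) (s : Fin ρ → Fin m) (c : Fin ρ → ℕ), ρ ≤ k ∧ (∀ j, c j < n) ∧
      (Matrix.of fun i l => X (c i) * pderiv (c i) (T (s l))).det ≠ 0 ∧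
      ∀ (e : ℕ → ℕ →₀ ℕ) (c' : Fin ρ → ℕ) (C : MvPolynomial (Fin m) E),
        sub e (Matrix.of fun i l => Du (fun x => ((e x (c' i) : ℕ) : E)) (T (s l))).det ≠ 0 →
        aeval T C ≠ 0 → sub e (aeval T C) ≠ 0

/-- ROW DUL.  `Du` is linear in the weights; clusters are polynomials in `x_0, ..., x_(n-1)`.

PROOF.  (1) Both sides are derivations which agree on the variables (`MvPolynomial.derivation_ext`), or
`mkDerivation_apply`: `Du u f = ∑ i ∈ f.vars, u_i x_i ∂_i f`, and `∂_i f = 0` for `i ∉ vars`.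
(2) as `clG_vars` in `Helper82_PX/HubG.lean`.  40 lines. -/
def DulStmt : Prop := ∀ (E : Type) [Field E],
  (∀ (n : ℕ) (f : MvPolynomial ℕ E) (u : ℕ → E), f.vars ⊆ Finset.range n →
    Du u f = ∑ l ∈ Finset.range n, C (u l) * (X l * pderiv l f)) ∧
  ∀ (c n s D : ℕ) (T : MvPolynomial ℕ E), IsClu E c n s D T → T.vars ⊆ Finset.range n

/-- ROW EXP.  THE ENTRIES OF THE JACOBIAN MATRIX: `Du u T = P ∑ x, nu u x / de x`.

PROOF (from MON, ISP, SNZ; model `Helper58_RS/CLU.lean`, `enu`, `ede`, `entry`, where all `e_v = 1`, and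
`Helper58_RS/StmtsG` rows LDE, DER, NMT).  `U = Fin M ⊕ Fin M × Fin N`, `P = ∏ f_v ^ e_v`,
`nu u (inl t) = Du a_t * b_t - a_t * Du b_t`, `de (inl t) = b_t * b_t`,
`nu u (inr (t, v)) = C e_v * (a_t * Du f_v)`, `de (inr (t, v)) = b_t * f_v`.
For `g ≠ 0` thin let `L_g = vectorSpan`, `s_g ∈ g.support` (MON (6)); for `a_t = 0` take `L = ⊥` and
`s = s_(b t)`, so that `δ = 0`.  `L (inl t) = L_(a t) ⊔ L_(b t)`, `ν (inl t) = 2 vec s_(b t)`,
`δ = s_(a t) - s_(b t)` (as an element of `ℕ →₀ ℤ`); `L (inr (t, v)) = L_(a t) ⊔ L_(b t) ⊔ L_(f v)`,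
`ν = vec s_(b t) + vec s_(f v)`, the same `δ`.  All `f_v ≠ 0` with `e_v ≠ 0` because `T ≠ 0`; replace
`f_v` by `1` if `e_v = 0` (or use the convention `f_v ^ 0 = 1`: choose the `f_v` with `e_v = 0` to be
`1` at the start).  `M ≥ 1` because `T ≠ 0`.  `P ≠ 0` and
`sub e P = ∏ (sub e f_v) ^ e_v ≠ 0` by SNZ, because `L_(f v) ≤ L (inr (0, v))`.
Dimensions `≤ 3 c`, `card U = M + M N ≤ s + s s`.  150 lines.  STRONG. -/
def ExpStmt : Prop := ∀ (E : Type) [Field E] (c n s D : ℕ) (T : MvPolynomial ℕ E),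
  IsClu E c n s D T → T ≠ 0 →
    ∃ (U : Type) (_ : Fintype U) (P : MvPolynomial ℕ E) (nu : (ℕ → E) → U → MvPolynomial ℕ E)
      (de : U → MvPolynomial ℕ E) (L : U → Submodule ℚ (ℕ →₀ ℚ)) (ν : U → ℕ →₀ ℚ)
      (δ : U → ℕ →₀ ℤ),
      Fintype.card U ≤ s + s * s ∧
      (∀ u : ℕ → E, io E (Du u T) = io E P * ∑ x, io E (nu u x) / io E (de x)) ∧
      (∀ x, de x ≠ 0) ∧ (∀ u x, Mon (L x) (ν x + zvec (δ x)) (nu u x)) ∧
      (∀ x, Mon (L x) (ν x) (de x)) ∧ (∀ x, IntSpan n D (L x)) ∧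
      (∀ x, Module.finrank ℚ (L x) ≤ 3 * c) ∧
      (∀ x, (∀ l, |δ x l| ≤ (D : ℤ)) ∧ ∀ l, n ≤ l → δ x l = 0) ∧ P ≠ 0 ∧
      ∀ e : ℕ → ℕ →₀ ℕ, (∀ x, ∀ v ∈ L x, lin e v = 0 → v = 0) → sub e P ≠ 0

/-- ROW DTX.  THE DETERMINANT (from EXP, MON, ISP, SNZ, KEY; model `Helper82_PX/Jac.lean`).

PROOF.  EXP for all `T l`: `U l`, `P l`, `nu l`, `de l`, `L l`, `ν l`, `δ l`.  `ι' = KIdx U`
(permutations `σ` and `t : ∀ l, U l`), card `≤ k! (s + s s) ^ k` (`ρ ≤ k`; `s + s s ≥ 1`? if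
`s = 0` then `M = 0` and `T = 0`, so `ρ = 0`).  `A u t = sign * ∏ nu l (u (σ l)) (t l)`,
`B t = ∏ de l (t l)`, `L_t = ⨆ L l (t l)` (dimension `≤ 3 c k`), `δ_t = ∑ δ l (t l)` (entries `≤ k D`).
`det_expand` (`Helper58_RS/CLU.lean`): `io (det (Du (u i) (T l))) = io (∏ P l) * total A B`.
The family of spaces: `ι = ι' × ι'`, `V (t, t') = L_t ⊔ L_t' ⊔ span {zvec (δ_t - δ_t')}`,
dimension `≤ 6 k c + 1`, `IntSpan n (2 k D + D)` (ISP).
Conclusion: if `det ≠ 0` then `total A B ≠ 0`, so by KEY (`L t ≤ V (t, t)`) the sum of the images is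
not `0`, so (NMT) `sub e (numer A B) ≠ 0`.  From the identity of polynomials
`det * ∏ B = (∏ P) * numer A B` (injectivity of `io`) apply `sub e`: `sub e (∏ P) ≠ 0` (EXP, last
point: `L l x` is contained in some `V`; for this take any `t` with `t l = x`, possible because all
`U l` are nonempty: `T l ≠ 0` has an entry... if some `U l` is empty then `Du u (T l) = 0` for all `u`,
and the determinant is `0`) so `sub e det ≠ 0`.  150 lines.  STRONG. -/
def DtxStmt : Prop := ∀ (E : Type) [Field E] (k c n s D ρ : ℕ) (T : Fin ρ → MvPolynomial ℕ E),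
  ρ ≤ k → (∀ l, IsClu E c n s D (T l)) → (∀ l, T l ≠ 0) →
    ∃ (ι : Type) (_ : Fintype ι) (V : ι → Submodule ℚ (ℕ →₀ ℚ)),
      Fintype.card ι ≤ (k.factorial * (s + s * s) ^ k + 1) ^ 2 ∧
      (∀ i, IntSpan n ((2 * k + 1) * D) (V i)) ∧ (∀ i, Module.finrank ℚ (V i) ≤ 6 * k * c + 1) ∧
      ∀ (e : ℕ → ℕ →₀ ℕ) (u : Fin ρ → ℕ → E), (∀ i, ∀ v ∈ V i, lin e v = 0 → v = 0) →
        (Matrix.of fun i l => Du (u i) (T l)).det ≠ 0 →
        sub e (Matrix.of fun i l => Du (u i) (T l)).det ≠ 0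

/-- ROW MAI.  ONE POLYNOMIAL OF THE CLASS (from FTH, DUL, DTX).

PROOF.  FTH for the clusters `T i`; `T (s l) ≠ 0` (else a column of the determinant vanishes); DTX for
`T (s l)`.  `Δ` = the multilinear map `v ↦ det (∑ l' < n, v i l' * io (X l' ∂_l' T (s l)))` over `FF E`
(`Matrix.detRowAlternating.toMultilinearMap.compLinearMap` for the linear map
`(ℕ → FF E) → (Fin ρ → FF E)`).  At `Pi.single (c j) 1` it is `io` of the determinant of FTH.
For `u j = fun x => e x (c'' j)`, DUL (1) (`if l < n` can be dropped): the value of `Δ` at the natural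
rows is `io (det (Du (u j) (T (s l))))`, so the determinant is not `0`; by DTX its image is not
`0`; FTH.  90 lines.  STRONG. -/
def MaiStmt : Prop := ∀ (E : Type) [Field E] [CharZero E] (k c n s D : ℕ) (F : MvPolynomial ℕ E),
  IsCmp E k c n s D F → F ≠ 0 →
    ∃ (ρ : ℕ) (Δ : MultilinearMap (FF E) (fun _ : Fin ρ => ℕ → FF E) (FF E)) (ι : Type)
      (_ : Fintype ι) (V : ι → Submodule ℚ (ℕ →₀ ℚ)), ρ ≤ k ∧
      (∃ c' : Fin ρ → ℕ, (∀ j, c' j < n) ∧ Δ (fun j => Pi.single (c' j) 1) ≠ 0) ∧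
      Fintype.card ι ≤ (k.factorial * (s + s * s) ^ k + 1) ^ 2 ∧
      (∀ i, IntSpan n ((2 * k + 1) * D) (V i)) ∧ (∀ i, Module.finrank ℚ (V i) ≤ 6 * k * c + 1) ∧
      ∀ (e : ℕ → ℕ →₀ ℕ) (c'' : Fin ρ → ℕ),
        Δ (fun j l => if l < n then ((e l (c'' j) : ℕ) : FF E) else 0) ≠ 0 →
        (∀ i, ∀ v ∈ V i, lin e v = 0 → v = 0) → sub e F ≠ 0

/-! ## Block 4: the hitting set and the test -/

/-- ROW NUM.  Numerical inequalities.

PROOF.  `B = n + s + D + k + c + 2`.  `k! ≤ B ^ k`, `s + s s ≤ B ^ 2`, `x + 1 ≤ 2 x ≤ B x`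
(`x = k! (s + s s) ^ k`; if `x = 0` clear), `s n ≤ B ^ 2`: the first product is at most
`B ^ (2 + 2 (3 k + 1)) < B ^ (36 k c + 6 k + 8)`.
`R = 6 k c + 1 ≤ B ^ 3`, `R! ≤ R ^ R ≤ B ^ (3 R)`, `(2 k + 1) D ≤ B ^ 3`: the second product is at most
`B ^ (6 R) = B ^ (36 k c + 6) < B ^ (36 k c + 6 k + 8)`.  40 lines. -/
def NumStmt : Prop := ∀ k c n s D : ℕ,
  s * (k.factorial * (s + s * s) ^ k + 1) ^ 2 * n < (n + s + D + k + c + 2) ^ (36 * k * c + 6 * k + 8) ∧
  s * n < (n + s + D + k + c + 2) ^ (36 * k * c + 6 * k + 8) ∧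
  (6 * k * c + 1).factorial * ((2 * k + 1) * D) ^ (6 * k * c + 1) <
    (n + s + D + k + c + 2) ^ (36 * k * c + 6 * k + 8)

/-- ROW HIT.  THE HITTING SET (from MLN, MOD, MAI, NUM).

PROOF.  MAI for all `F ∈ S` (index type `Fin S.length`; `F ≠ 0` because the product is not `0`).  MLN
over `FF E` (characteristic zero) for the family of the `Δ_F`: `β : Fin k → Fin q`.  MOD for all `V_F,i`
(index type `Σ F, ι_F`, card `≤ s (...) ^ 2`), `R = 6 k c + 1`: `α' : Fin R → Fin q`.  `α j = α' j` for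
`j < R`, `α (R + j) = β j` for `j < k`, the others `0`.  `e = gexp q α`: `e l j = wt q (α j) l` for
`j < t`, so `(lin e v) j = ∑ v_l wt q (α j) l` (sum over the support; for `v ∈ V` supported in `range n`
by `IntSpan`), so `lin e v = 0` implies `v = 0` for `v ∈ V_F,i` (MOD); `c'' j = R + j`.  So
`sub e F ≠ 0` for all `F`, and `sub e` of the product is not `0`.  90 lines.  STRONG. -/
def HitStmt : Prop := ∀ (E : Type) [Field E] [CharZero E] (k c n s D t q : ℕ), q.Prime →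
  6 * k * c + k + 1 ≤ t → (n + s + D + k + c + 2) ^ (36 * k * c + 6 * k + 8) ≤ q →
    ∀ S : List (MvPolynomial ℕ E), S.length ≤ s → (∀ F ∈ S, IsCmp E k c n s D F) → S.prod ≠ 0 →
      ∃ (α : Fin t → Fin q) (y : Fin t → E), eval (tpoint n q α y) S.prod ≠ 0

open Pool.Agent.Helper78_ACIT Pool.Agent.UO in
/-- ROW TST.  The test for circuits.

PROOF (edit of `Helper99_RS/Fin.lean`, `test`).  Let `poly G` have degree at most `D`, length at most
`2 ^ b` and divide over `E` a nonzero polynomial which does not vanish at `tpoint n q α y`, `y ∈ E^t`.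
Then `Q = aeval (tpoint n q α X) (poly G) ∈ ℤ[y_0, ..., y_(t-1)]` is not zero, of degree at most `q D` in
every variable, so it does not vanish at some `y ∈ {0, ..., q D}^t`
(`MvPolynomial.exists_..` grid lemma, see `CMP.int_hit_of`, `Helper12_CMP/Transfer.lean`).
The value is at most `2 ^ b * ((q D + 1) ^ (t q)) ^ D ≤ 2 ^ (b + t (q D) ^ 2)` in absolute value
(`natAbs_eval_le`; `x + 1 ≤ 2 ^ x`), `exists_prime_not_dvd`.  100 lines.  STRONG. -/
def TstStmt : Prop := ∀ (E : Type) [Field E] [CharZero E] (n t q : ℕ) (P : MvPolynomial ℕ E → Prop),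
  0 < q → (∀ F, P F → ∃ (α : Fin t → Fin q) (y : Fin t → E), eval (tpoint n q α y) F ≠ 0) →
    ∀ (D b : ℕ) (G : List Gate), WellFormed G →
      (poly G = 0 ∨ ((poly G).totalDegree ≤ D ∧ length (poly G) ≤ 2 ^ b ∧
        ∃ F : MvPolynomial ℕ E, P F ∧ map (Int.castRingHom E) (poly G) ∣ F)) →
      (G ∈ ACIT ↔ ∀ p, p.Prime → p ≤ 64 * (b + t * (q * D) ^ 2 + 1) ^ 2 →
        ∀ (α : Fin t → Fin q) (y : Fin t → Fin (q * D + 1)),
          out (tpoint n q α fun j => ((y j : ℕ) : ZMod p)) G = 0)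

/-- ROW EXA.  Examples.

PROOF.  (1) A polynomial with at most `c + 1` monomials is thin: `finrank_vectorSpan_le_..`
(`finrank_vectorSpan_image_finset_le`, `Finset.card` of the image).  (2) A polynomial with variables in a
set of at most `c` elements is thin: the `vectorSpan` is contained in the span of the `c` unit
vectors.  (3) A sum of at most `s` monomials times powers of thin polynomials is a cluster: `M` = number of
monomials of `g`, `a_t` = the monomials, `b_t = 1`; `1` is thin (`c ≥ 0`).  (4) The sum of `k`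
clusters is in the class (`C = ∑ X i`; `card ≤ k` by `Fintype.card`).  80 lines. -/
def ExaStmt : Prop := ∀ (E : Type) [Field E] (k c n s D : ℕ),
  (∀ f : MvPolynomial ℕ E, f.vars ⊆ Finset.range n → f.totalDegree ≤ D → f.support.card ≤ c + 1 →
    IsThin E c n D f) ∧
  (∀ f : MvPolynomial ℕ E, f.vars ⊆ Finset.range n → f.totalDegree ≤ D → f.vars.card ≤ c →
    IsThin E c n D f) ∧
  ∀ (N : Fin k → ℕ) (g : Fin k → MvPolynomial ℕ E) (f : ∀ i : Fin k, Fin (N i) → MvPolynomial ℕ E)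
    (e : ∀ i : Fin k, Fin (N i) → ℕ), (∀ i, N i ≤ s) → (∀ i v, IsThin E c n D (f i v)) →
    (∀ i, (g i).vars ⊆ Finset.range n ∧ (g i).totalDegree ≤ D ∧ (g i).support.card ≤ s) →
      IsCmp E k c n s D (∑ i, g i * ∏ v, f i v ^ e i v)

end Pool.Agent.TOR
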