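import Pool.Agent.TOR.Stmts
import Pool.Agent.Helper99_EXP.Point

set_option autoImplicit false

/-!
# Squad TOR, block X: exponents in binary (helper99)

The abstract pivot lemma is `Pool.Agent.EXP99.exists_good_gen` (`Helper99_EXP/Point.lean`).  These rows
show that the class of clusters of thin polynomials is closed under the pivot operation, and give the
points.  Deliver `Pool/Agent/HelperNN_TOR/XXX.lean`, `import Pool.Agent.TOR.StmtsX`, namespace
`Pool.Agent.TOR.HNN`, `theorem xxx (hypotheses = rows in uses) : XxxStmt`.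
-/

namespace Pool.Agent.TOR

open MvPolynomial
open Pool.Agent.RS (FF io total numer)
open Pool.Agent.EXP99 (DD lam piv)

/-- Polynomials in `x_0, ..., x_(n-1)` with integer coefficients as elements of `ℚ[x_0, x_1, ...]`. -/
noncomputable def cv (n : ℕ) : MvPolynomial (Fin n) ℤ →+* MvPolynomial ℕ ℚ :=
  (rename (Fin.val : Fin n → ℕ)).toRingHom.comp (map (Int.castRingHom ℚ))

/-- ROW XTH.  RULES FOR THIN POLYNOMIALS.

PROOF.  (1) `vars_mul`, `totalDegree_mul`; for `f g ≠ 0` choose `s₀ ∈ f.support`, `s₁ ∈ g.support`: all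
exponent vectors of `f g` are in `vec s₀ + vec s₁ + (V_f + V_g)` (MON (1), (6), or directly
`support_mul`), so its `vectorSpan` is contained in `V_f ⊔ V_g`
(`vectorSpan_le_..`: differences of elements of `x + L` are in `L`), `finrank` of a sup is at most the
sum (finite dimension: `IntSpan`, MON (7), ISP (5), (6), or directly: the `vectorSpan` of a finite set is
finite-dimensional), `Submodule.finrank_mono`.  If `f g = 0`: `support = ∅`.
(2) `pderiv l f`: its exponent vectors are `s - e_l`, `s ∈ f.support`, `s_l ≥ 1`: differences are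
differences of exponent vectors of `f`: `vectorSpan` contained in `V_f`.  `vars_pderiv_subset`-like
(`Helper99_RS` / `PW` have it: `pderiv` does not create variables), degree does not grow.
(3) support of `C a * f` is a subset of the support of `f`.  (4) clear.  (5) clear.  100 lines. -/
def XthStmt : Prop := ∀ (n : ℕ),
  (∀ (c c' D D' : ℕ) (f g : MvPolynomial ℕ ℚ), IsThin ℚ c n D f → IsThin ℚ c' n D' g →
    IsThin ℚ (c + c') n (D + D') (f * g)) ∧
  (∀ (c D l : ℕ) (f : MvPolynomial ℕ ℚ), IsThin ℚ c n D f → IsThin ℚ c n D (pderiv l f)) ∧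
  (∀ (c D : ℕ) (a : ℚ) (f : MvPolynomial ℕ ℚ), IsThin ℚ c n D f → IsThin ℚ c n D (C a * f)) ∧
  (∀ (c c' D D' : ℕ) (f : MvPolynomial ℕ ℚ), c ≤ c' → D ≤ D' → IsThin ℚ c n D f →
    IsThin ℚ c' n D' f) ∧
  ∀ (c D : ℕ) (a : ℚ), IsThin ℚ c n D (C a)

/-- ROW XFR.  THE PIVOT OPERATION IN THE FIELD OF FRACTIONS.

Let `A = P (∑ t, a_t / b_t)`, `B = P' (∑ t', a'_t' / b'_t')`, `P = ∏ g_v ^ ε_v`, `P' = ∏ g'_v ^ ε'_v`.
Then `piv β f l A B = (∏ f_v) P P' ∑ x, β_j w_x / d_x` over the index type `U` below, where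
`D = ∑ j < n, β_j ∂_j` and the terms are, for `(t, t', j)`,
* `∂_j a_t * a'_t' / (b_t b'_t')`, `- a_t * ∂_j b_t * a'_t' / (b_t ^ 2 b'_t')`,
* `- a_t * ∂_j a'_t' / (b_t b'_t')`, `a_t * a'_t' * ∂_j b'_t' / (b_t b'_t' ^ 2)`,
and for `(t, t', j, v)`: `ε_v a_t a'_t' ∂_j g_v / (b_t b'_t' g_v)`,
`- ε'_v a_t a'_t' ∂_j g'_v / (b_t b'_t' g'_v)`, `l_v a_t a'_t' ∂_j f_v / (b_t b'_t' f_v)`.

PROOF.  `dd j` (`Pool.Agent.PW.dd`, `PW.aDer`: `dd j (io f) = io (pderiv j f)`) is a derivation of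
`FF ℚ`; `D = ∑ j < n, β_j dd j`; `io (cv (DD β A)) = D (io (cv A))` (`EXP99.DD_eq_sum`, `cv` commutes with
`pderiv`: `pderiv_map`, `pderiv_rename`).  With `α = ∑ a_t / b_t`: `D (P α) = P (D α + α ∑ ε_v D g_v / g_v)`
(all `g_v ≠ 0`: if `P = 0` or `P' = 0` the class is trivial, see XPV), quotient rule.  150 lines.  STRONG.
The index type: `U = (Fin M × Fin M' × Fin n) × (Fin 4 ⊕ (Fin N ⊕ Fin N' ⊕ Fin μ))`. -/
def XfrStmt : Prop := ∀ (n μ N N' M M' : ℕ) (f : Fin μ → MvPolynomial (Fin n) ℤ)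
  (A B : MvPolynomial (Fin n) ℤ) (g : Fin N → MvPolynomial ℕ ℚ) (ε : Fin N → ℕ)
  (g' : Fin N' → MvPolynomial ℕ ℚ) (ε' : Fin N' → ℕ) (a b : Fin M → MvPolynomial ℕ ℚ)
  (a' b' : Fin M' → MvPolynomial ℕ ℚ) (β : Fin n → ℤ) (l : Fin μ → ℤ),
  (∀ v, cv n (f v) ≠ 0) → (∀ v, g v ≠ 0) → (∀ v, g' v ≠ 0) → (∀ t, b t ≠ 0) → (∀ t, b' t ≠ 0) →
  io ℚ (cv n A) = io ℚ (∏ v, g v ^ ε v) * ∑ t, io ℚ (a t) / io ℚ (b t) →
  io ℚ (cv n B) = io ℚ (∏ v, g' v ^ ε' v) * ∑ t, io ℚ (a' t) / io ℚ (b' t) →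
  io ℚ (cv n (piv β f l A B)) =
    io ℚ ((∏ v, cv n (f v)) * ((∏ v, g v ^ ε v) * ∏ v, g' v ^ ε' v)) *
      ∑ x : (Fin M × Fin M' × Fin n) × (Fin 4 ⊕ (Fin N ⊕ Fin N' ⊕ Fin μ)),
        io ℚ (C (β x.1.2.2 : ℚ) * match x.2 with
          | Sum.inl 0 => pderiv (x.1.2.2 : ℕ) (a x.1.1) * a' x.1.2.1
          | Sum.inl 1 => C (-1) * (a x.1.1 * pderiv (x.1.2.2 : ℕ) (b x.1.1) * a' x.1.2.1)
          | Sum.inl 2 => C (-1) * (a x.1.1 * pderiv (x.1.2.2 : ℕ) (a' x.1.2.1))
          | Sum.inl 3 => a x.1.1 * a' x.1.2.1 * pderiv (x.1.2.2 : ℕ) (b' x.1.2.1)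
          | Sum.inr (Sum.inl v) => C (ε v : ℚ) *
              (a x.1.1 * a' x.1.2.1 * pderiv (x.1.2.2 : ℕ) (g v))
          | Sum.inr (Sum.inr (Sum.inl v)) => C (-(ε' v : ℚ)) *
              (a x.1.1 * a' x.1.2.1 * pderiv (x.1.2.2 : ℕ) (g' v))
          | Sum.inr (Sum.inr (Sum.inr v)) => C (l v : ℚ) *
              (a x.1.1 * a' x.1.2.1 * pderiv (x.1.2.2 : ℕ) (cv n (f v)))) /
        io ℚ (match x.2 with
          | Sum.inl 0 => b x.1.1 * b' x.1.2.1
          | Sum.inl 1 => b x.1.1 * b x.1.1 * b' x.1.2.1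
          | Sum.inl 2 => b x.1.1 * b' x.1.2.1
          | Sum.inl 3 => b x.1.1 * b' x.1.2.1 * b' x.1.2.1
          | Sum.inr (Sum.inl v) => b x.1.1 * b' x.1.2.1 * g v
          | Sum.inr (Sum.inr (Sum.inl v)) => b x.1.1 * b' x.1.2.1 * g' v
          | Sum.inr (Sum.inr (Sum.inr v)) => b x.1.1 * b' x.1.2.1 * cv n (f v))

/-- ROW XPV.  THE PIVOT OPERATION ON CLUSTERS OF THIN POLYNOMIALS (from XTH, XFR).

PROOF.  If `cv A = 0` or `cv B = 0` then `piv = 0` (`piv β f l 0 B = 0`; `cv` is injective), and `0` is a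
cluster (`M = 0`, `N = 0`: the sum is empty).  Otherwise the `g_v` with `ε_v ≠ 0` are not `0` (the product
would vanish, and `A ∏ b ≠ 0`); replace the `g_v` with `ε_v = 0` by `1`.  `IsClu` gives the equations of
XFR after division by `∏ b` (`Finset.mul_prod_erase`, `div_add_div`-like: the row NMT of squad RS,
`RS.H47.nmt`: `total`, `numer`).  XFR gives `piv` as product times sum over `U` of fractions; numerators
and denominators are thin for `3 c`, `3 D` (XTH; products of at most three thin polynomials and their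
derivatives and constants; products of two are thin for `2 c ≤ 3 c`).  `card U = M M' n (4 + N + N' + μ)
≤ n s ^ 2 (2 s + μ + 4)`; the product has `μ + N + N' ≤ 2 s + μ` factors (`Fin.append` twice; exponents `1`,
`ε`, `ε'`).  Back to polynomials: `Fintype.equivFin`, NMT and injectivity of `io`.  120 lines.  STRONG. -/
def XpvStmt : Prop := ∀ (n μ c s D : ℕ) (f : Fin μ → MvPolynomial (Fin n) ℤ)
  (A B : MvPolynomial (Fin n) ℤ) (β : Fin n → ℤ) (l : Fin μ → ℤ),
  (∀ v, IsThin ℚ c n D (cv n (f v)) ∧ f v ≠ 0) → IsClu ℚ c n s D (cv n A) →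
  IsClu ℚ c n s D (cv n B) →
  IsClu ℚ (3 * c) n (n * s ^ 2 * (2 * s + μ + 4) + (2 * s + μ)) (3 * D) (cv n (piv β f l A B))

/-- ROW XSM.  SUMS OF CLUSTERS TIMES POWERS.

PROOF.  (1) `cv A * ∏ (cv f_v) ^ e_v` is a cluster with `N + μ` factors (`Fin.append`,
`Fin.prod_univ_add`).  (2) `C = ∑ X i` over `Fin I.card` (`I.equivFin`), as in EXA (4)
(`Helper29_TOR/EXA.lean`).  (3) special case: `1` is a cluster (`M = 1`, `a = b = 1`), `k ≥ 1`.  60 lines. -/
def XsmStmt : Prop := ∀ (n μ c s D k r : ℕ) (f : Fin μ → MvPolynomial (Fin n) ℤ),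
  (∀ v, IsThin ℚ c n D (cv n (f v))) →
  (∀ (I : Finset (Fin r)) (A : Fin r → MvPolynomial (Fin n) ℤ) (e : Fin r → Fin μ → ℕ), I.card ≤ k →
    (∀ i ∈ I, IsClu ℚ c n s D (cv n (A i))) →
    IsCmp ℚ k c n (s + μ) D (cv n (∑ i ∈ I, A i * ∏ v, f v ^ e i v))) ∧
  (1 ≤ k → 1 ≤ s → ∀ v, IsCmp ℚ k c n s D (cv n (f v)))

/-- ROW XPT.  SMALL INTEGER POINTS.

PROOF.  `K` does not vanish at `tpoint n q α y`, `y ∈ ℚ^t` (after `cv`), so
`Q = aeval (fun l : Fin n => tpoint n q α X l) K ∈ ℤ[y_0, ..., y_(t-1)]` is not zero; its degree in every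
variable is at most `q D` (as in TST, `Helper29_TOR/TST.lean`), so there is `y ∈ {0, ..., q D}^t` with
`eval y Q ≠ 0`.  The coordinates are products of `t` powers `y_j ^ (α_j ^ l mod q) ≤ (q D + 1) ^ q`.
80 lines. -/
def XptStmt : Prop := ∀ (n t q D : ℕ) (K : MvPolynomial (Fin n) ℤ), 0 < q → K.totalDegree ≤ D →
  (∃ (α : Fin t → Fin q) (y : Fin t → ℚ), eval (tpoint n q α y) (cv n K) ≠ 0) →
    ∃ (α : Fin t → Fin q) (y : Fin t → ℕ), (∀ j, y j ≤ q * D) ∧
      eval (fun l : Fin n => tpoint n q α (fun j => (y j : ℤ)) (l : ℕ)) K ≠ 0 ∧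
      ∀ l : Fin n, (tpoint n q α (fun j => (y j : ℤ)) (l : ℕ)).natAbs ≤ (q * D + 1) ^ (t * q)

/-- ROW XFC.  FACTORS OF THIN POLYNOMIALS ARE THIN.

PROOF.  `f = g h ≠ 0`, `V = vectorSpan` of the exponent vectors of `f`.  For a weight `w : ℕ → ℤ` (or ℚ) which
vanishes on `V` all monomials of `f` have the same weight, so `f` is weighted homogeneous, so `g` is
(take the parts `g_top`, `g_bot` of `g` of the largest and smallest weight, same for `h`: the products
`g_top h_top` and `g_bot h_bot` are nonzero parts of `f` of weights `wt g_top + wt h_top` and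
`wt g_bot + wt h_bot`, so equal).  So for `s, s' ∈ g.support` the difference `vec s - vec s'` is
killed by all rational weights which kill `V`; so it is in `V` (a vector outside the subspace `V` is
separated from `V` by a linear functional, `Submodule.exists_le_ker_of_notMem` /
`Submodule.exists_dual_map_eq_bot_of_notMem`).  A functional on `ℕ →₀ ℚ` is a weight `ℕ → ℚ`: use
`weightedHomogeneousComponent` with values in `ℚ`, or argue with `Finset.exists_max_image` on the supports.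
`vars g ⊆ vars f`, `totalDegree g ≤ totalDegree f` (`totalDegree_le_of_dvd_of_isDomain`; for the
variables `degreeOf_mul_eq` as in `Helper82_PX/HubG.lean`).  120 lines.  STRONG. -/
def XfcStmt : Prop := ∀ (n c D : ℕ) (f g : MvPolynomial ℕ ℚ), IsThin ℚ c n D f → f ≠ 0 → g ∣ f →
  IsThin ℚ c n D g

end Pool.Agent.TOR
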